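import Pool.Agent.H93.AR.TargetsE
import Pool.Agent.H86.AR.Base
import Pool.Agent.H31.BR.AF
import Pool.Agent.H71.BR.JM

/-! # AM2: elementary properties of the angular average in the second block -/

set_option autoImplicit false

namespace Pool.Agent.H54.BR

open MeasureTheory Set FourierTransform Pool.Agent.H83.LS Pool.Agent.H54.LS Pool.Agent.H93.AR
  Pool.Agent.H83.AR Pool.Agent.H86.AR Pool.Agent.H71.BR
open scoped ENNReal NNReal SchwartzMap

/-- the first argument of the kernel -/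
noncomputable def dir2 (a b : ℕ) (x : EE (a + b)) : EE b := ‖p2 a b x‖⁻¹ • p2 a b x

theorem dir2_cases (a b : ℕ) (x : EE (a + b)) : dir2 a b x = 0 ∨ ‖dir2 a b x‖ = 1 := by
  rcases eq_or_ne ‖p2 a b x‖ 0 with h | h
  · left
    rw [dir2, h, inv_zero, zero_smul]
  · right
    rw [dir2, norm_smul, norm_inv, norm_norm, inv_mul_cancel₀ h]

theorem norm_p2_jm (a b : ℕ) {r : ℝ} (hr : 0 ≤ r) (w : Sp b) (y : EE a) :
    ‖p2 a b (jm a b y (r • (w : EE b)))‖ = r := by
  rw [p2_jm, norm_smul, Pool.Agent.H86.AR.sp_norm, mul_one, Real.norm_of_nonneg hr]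

theorem dir2_jm (a b : ℕ) {r : ℝ} (hr : 0 < r) (w : Sp b) (y : EE a) :
    dir2 a b (jm a b y (r • (w : EE b))) = (w : EE b) := by
  rw [dir2, norm_p2_jm a b hr.le, p2_jm, smul_smul, inv_mul_cancel₀ hr.ne', one_smul]

theorem measurable_dir2 (a b : ℕ) : Measurable (dir2 a b) := by
  unfold dir2
  exact ((cont_p2 a b).norm.measurable.inv).smul (cont_p2 a b).measurable

theorem A2_def (a b : ℕ) (L : ℝ) (f : EE (a + b) → ℂ) (x : EE (a + b)) :
    A2 a b L f x = ∫ w : Sp b, ((zk b L (dir2 a b x) (w : EE b) : ℝ) : ℂ) *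
      f (jm a b (p1 a b x) (‖p2 a b x‖ • (w : EE b))) ∂(sg b) := rfl

theorem meas_pt2 {a b : ℕ} (f : EE (a + b) → ℂ) (hf : Measurable f) :
    Measurable fun q : EE (a + b) × Sp b =>
      f (jm a b (p1 a b q.1) (‖p2 a b q.1‖ • (q.2 : EE b))) := by
  have h1 : Measurable fun q : EE (a + b) × Sp b => ‖p2 a b q.1‖ :=
    (cont_p2 a b).norm.measurable.comp measurable_fst
  have h2 : Measurable fun q : EE (a + b) × Sp b => (q.2 : EE b) :=
    measurable_subtype_coe.comp measurable_snd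
  have h3 : Measurable fun q : EE (a + b) × Sp b => p1 a b q.1 :=
    (cont_p1 a b).measurable.comp measurable_fst
  have h5 : Measurable fun q : EE (a + b) × Sp b => (p1 a b q.1, ‖p2 a b q.1‖ • (q.2 : EE b)) :=
    h3.prodMk (h1.smul h2)
  exact hf.comp ((cont_jm a b).measurable.comp h5)

theorem meas_zk2 (hZB : T_ZB) {a b : ℕ} {L : ℝ} (hb : 1 ≤ b) (hL : 1 ≤ L) :
    Measurable fun q : EE (a + b) × Sp b => zk b L (dir2 a b q.1) (q.2 : EE b) := by
  have h1 : Measurable fun q : EE (a + b) × Sp b => (dir2 a b q.1, (q.2 : EE b)) :=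
    ((measurable_dir2 a b).comp measurable_fst).prodMk (measurable_subtype_coe.comp measurable_snd)
  have h2 := (Pool.Agent.H86.AR.zk_meas hZB hb hL).comp h1
  exact h2

theorem meas_pt2' {a b : ℕ} (f : EE (a + b) → ℂ) (hf : Measurable f) (x : EE (a + b)) :
    Measurable fun w : Sp b => f (jm a b (p1 a b x) (‖p2 a b x‖ • (w : EE b))) := by
  have h1 : Measurable fun w : Sp b => (x, w) := measurable_const.prodMk measurable_id
  have h2 := (meas_pt2 f hf).comp h1
  exact h2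

theorem A2_meas (hZB : T_ZB) {a b : ℕ} {L : ℝ} (hb : 1 ≤ b) (hL : 1 ≤ L)
    (f : EE (a + b) → ℂ) (hf : Measurable f) : Measurable (A2 a b L f) := by
  have h : Measurable fun q : EE (a + b) × Sp b =>
      ((zk b L (dir2 a b q.1) (q.2 : EE b) : ℝ) : ℂ) *
        f (jm a b (p1 a b q.1) (‖p2 a b q.1‖ • (q.2 : EE b))) :=
    (Complex.measurable_ofReal.comp (meas_zk2 hZB hb hL)).mul (meas_pt2 f hf)
  exact (h.stronglyMeasurable.integral_prod_right (ν := sg b)).measurable

theorem A2_int (hZN : T_ZN) (hZB : T_ZB) {a b : ℕ} {L : ℝ} (hb : 1 ≤ b) (hL : 1 ≤ L)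
    (f : EE (a + b) → ℂ) (hf : Measurable f) {A : ℝ} (hA : ∀ x, ‖f x‖ ≤ A) (x : EE (a + b)) :
    Integrable (fun w : Sp b => ((zk b L (dir2 a b x) (w : EE b) : ℝ) : ℂ) *
      f (jm a b (p1 a b x) (‖p2 a b x‖ • (w : EE b)))) (sg b) :=
  Integrable.mul_bdd (c := A)
    (Pool.Agent.H86.AR.zk_integrable hZN hZB hb hL (dir2_cases a b x)).ofReal
    (meas_pt2' f hf x).aestronglyMeasurable (Filter.Eventually.of_forall fun _ => hA _)

theorem A2_pow (hZN : T_ZN) (hZB : T_ZB) {a b : ℕ} {L : ℝ} (hb : 1 ≤ b) (hL : 1 ≤ L)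
    (f : EE (a + b) → ℂ) (hf : Measurable f) {p : ℝ} (hp : 1 ≤ p) (x : EE (a + b)) :
    ‖A2 a b L f x‖ₑ ^ p ≤ ∫⁻ w : Sp b, ENNReal.ofReal (zk b L (dir2 a b x) (w : EE b)) *
      ‖f (jm a b (p1 a b x) (‖p2 a b x‖ • (w : EE b)))‖ₑ ^ p ∂(sg b) := by
  set k : Sp b → ℝ≥0∞ := fun w => ENNReal.ofReal (zk b L (dir2 a b x) (w : EE b)) with hk
  have hkm : Measurable k := (zk_meas' hZB hb hL (dir2 a b x)).ennreal_ofReal
  set g : Sp b → ℝ≥0∞ := fun w => ‖f (jm a b (p1 a b x) (‖p2 a b x‖ • (w : EE b)))‖ₑ with hg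
  have hgm : Measurable g := (meas_pt2' f hf x).enorm
  set μ : Measure (Sp b) := (sg b).withDensity k with hμ
  have hμ1 : μ univ = 1 := by
    rw [hμ, withDensity_apply _ MeasurableSet.univ, Measure.restrict_univ]
    exact hZN b L (dir2 a b x) hb hL (dir2_cases a b x)
  have : IsFiniteMeasure μ := ⟨by rw [hμ1]; exact ENNReal.one_lt_top⟩
  have h1 : ‖A2 a b L f x‖ₑ ≤ ∫⁻ w, g w ∂μ := by
    rw [hμ, lintegral_withDensity_eq_lintegral_mul _ hkm hgm, A2_def]
    refine (enorm_integral_le_lintegral_enorm _).trans (lintegral_mono fun w => ?_)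
    rw [enorm_mul, Pi.mul_apply]
    refine mul_le_mul_left ?_ _
    rw [hk]
    simp only
    rw [← ofReal_norm, Complex.norm_real,
      Real.norm_of_nonneg (Pool.Agent.H86.AR.zk_nonneg hZB hb hL _ _)]
  have h2 := lint_rpow_le μ g hgm.aemeasurable p hp
  rw [hμ1, ENNReal.one_rpow, one_mul] at h2
  calc ‖A2 a b L f x‖ₑ ^ p ≤ (∫⁻ w, g w ∂μ) ^ p := ENNReal.rpow_le_rpow h1 (by linarith)
    _ ≤ ∫⁻ w, g w ^ p ∂μ := h2
    _ = ∫⁻ w, k w * g w ^ p ∂(sg b) := by
      rw [hμ, lintegral_withDensity_eq_lintegral_mul _ hkm (hgm.pow_const p)]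
      rfl

theorem A2_lp (hZN : T_ZN) (hZB : T_ZB) {a b : ℕ} {L : ℝ} (hb : 1 ≤ b) (hL : 1 ≤ L)
    (f : EE (a + b) → ℂ) (hf : Measurable f) {p : ℝ} (hp : 1 ≤ p) :
    ∫⁻ x, ‖A2 a b L f x‖ₑ ^ p ≤ ∫⁻ x, ‖f x‖ₑ ^ p := by
  have hm1 : Measurable fun q : EE (a + b) × Sp b =>
      ENNReal.ofReal (zk b L (dir2 a b q.1) (q.2 : EE b)) *
        ‖f (jm a b (p1 a b q.1) (‖p2 a b q.1‖ • (q.2 : EE b)))‖ₑ ^ p :=
    (meas_zk2 hZB hb hL).ennreal_ofReal.mul ((meas_pt2 f hf).enorm.pow_const p)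
  set G : EE (a + b) → ℝ≥0∞ := fun x =>
    ∫⁻ w : Sp b, ENNReal.ofReal (zk b L (dir2 a b x) (w : EE b)) *
      ‖f (jm a b (p1 a b x) (‖p2 a b x‖ • (w : EE b)))‖ₑ ^ p ∂(sg b) with hG
  have hGm : Measurable G := hm1.lintegral_prod_right'
  have h1 : ∫⁻ x, ‖A2 a b L f x‖ₑ ^ p ≤ ∫⁻ x, G x :=
    lintegral_mono fun x => A2_pow hZN hZB hb hL f hf hp x
  refine h1.trans (le_of_eq ?_)
  have hfp : Measurable fun x : EE (a + b) => ‖f x‖ₑ ^ p := hf.enorm.pow_const p
  have hjm : Measurable fun q : Sp b × (Ioi (0 : ℝ) × EE a) =>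
      jm a b q.2.2 ((q.2.1 : ℝ) • (q.1 : EE b)) := (mp_cyl2 a b hb).measurable
  rw [← (mp_cyl2 a b hb).lintegral_comp hGm, ← (mp_cyl2 a b hb).lintegral_comp hfp]
  -- the kernel in cylindrical coordinates
  have e1 : ∀ q : Sp b × (Ioi (0 : ℝ) × EE a), G (jm a b q.2.2 ((q.2.1 : ℝ) • (q.1 : EE b))) =
      ∫⁻ w : Sp b, ENNReal.ofReal (zk b L (q.1 : EE b) (w : EE b)) *
        ‖f (jm a b q.2.2 ((q.2.1 : ℝ) • (w : EE b)))‖ₑ ^ p ∂(sg b) := by
    intro q
    have hr : (0 : ℝ) < q.2.1 := q.2.1.2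
    rw [hG]
    simp only
    rw [dir2_jm a b hr, norm_p2_jm a b hr.le, p1_jm]
  simp only [e1]
  -- measurability of the integrand
  have hF : Measurable fun r : (Sp b × (Ioi (0 : ℝ) × EE a)) × Sp b =>
      ENNReal.ofReal (zk b L (r.1.1 : EE b) (r.2 : EE b)) *
        ‖f (jm a b r.1.2.2 ((r.1.2.1 : ℝ) • (r.2 : EE b)))‖ₑ ^ p := by
    have a1 : Measurable fun r : (Sp b × (Ioi (0 : ℝ) × EE a)) × Sp b =>
        ((r.1.1 : EE b), (r.2 : EE b)) :=
      (measurable_subtype_coe.comp (measurable_fst.comp measurable_fst)).prodMk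
        (measurable_subtype_coe.comp measurable_snd)
    have a2 := ((Pool.Agent.H86.AR.zk_meas hZB hb hL).comp a1).ennreal_ofReal
    have a3 : Measurable fun r : (Sp b × (Ioi (0 : ℝ) × EE a)) × Sp b => (r.2, r.1.2) :=
      measurable_snd.prodMk (measurable_snd.comp measurable_fst)
    have a4 := hfp.comp (hjm.comp a3)
    exact a2.mul a4
  have hFm : Measurable fun q : Sp b × (Ioi (0 : ℝ) × EE a) =>
      ∫⁻ w : Sp b, ENNReal.ofReal (zk b L (q.1 : EE b) (w : EE b)) *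
        ‖f (jm a b q.2.2 ((q.2.1 : ℝ) • (w : EE b)))‖ₑ ^ p ∂(sg b) := hF.lintegral_prod_right'
  have hRm : Measurable fun q : Sp b × (Ioi (0 : ℝ) × EE a) =>
      ‖f (jm a b q.2.2 ((q.2.1 : ℝ) • (q.1 : EE b)))‖ₑ ^ p := by
    have h := hfp.comp hjm
    exact h
  rw [lintegral_prod_symm _ hFm.aemeasurable, lintegral_prod_symm _ hRm.aemeasurable]
  refine lintegral_congr fun s => ?_
  dsimp only
  have hswap : Measurable fun r : Sp b × Sp b =>
      ENNReal.ofReal (zk b L (r.1 : EE b) (r.2 : EE b)) *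
        ‖f (jm a b s.2 ((s.1 : ℝ) • (r.2 : EE b)))‖ₑ ^ p := by
    have a1 : Measurable fun r : Sp b × Sp b => ((r.1, s), r.2) :=
      (measurable_fst.prodMk measurable_const).prodMk measurable_snd
    have a2 := hF.comp a1
    exact a2
  rw [lintegral_lintegral_swap hswap.aemeasurable]
  refine lintegral_congr fun w => ?_
  have hkm : Measurable fun w' : Sp b => ENNReal.ofReal (zk b L (w' : EE b) (w : EE b)) := by
    have a1 : Measurable fun w' : Sp b => ((w' : EE b), (w : EE b)) :=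
      measurable_subtype_coe.prodMk measurable_const
    have a2 := ((Pool.Agent.H86.AR.zk_meas hZB hb hL).comp a1).ennreal_ofReal
    exact a2
  rw [lintegral_mul_const _ hkm]
  have e2 : ∫⁻ w' : Sp b, ENNReal.ofReal (zk b L (w' : EE b) (w : EE b)) ∂(sg b) = 1 := by
    rw [← hZN b L (w : EE b) hb hL (Or.inr (Pool.Agent.H86.AR.sp_norm w))]
    refine lintegral_congr fun w' => ?_
    rw [Pool.Agent.H86.AR.zk_symm hZB hb hL (Pool.Agent.H86.AR.sp_norm w')
      (Pool.Agent.H86.AR.sp_norm w)]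
  rw [e2, one_mul]

theorem A2_integrable (hZN : T_ZN) (hZB : T_ZB) {a b : ℕ} {L : ℝ} (hb : 1 ≤ b) (hL : 1 ≤ L)
    (f : EE (a + b) → ℂ) (hf : Measurable f) (hfi : Integrable f) : Integrable (A2 a b L f) := by
  refine ⟨(A2_meas hZB hb hL f hf).aestronglyMeasurable, ?_⟩
  have h := A2_lp hZN hZB hb hL f hf (le_refl (1 : ℝ))
  simp only [ENNReal.rpow_one] at h
  exact h.trans_lt hfi.2

theorem A2_four (hZC : T_ZC) (hZB : T_ZB) (hZN : T_ZN) {a b : ℕ} {L : ℝ} (hb : 1 ≤ b)
    (hL : 1 ≤ L) (f : EE (a + b) → ℂ) (hfm : Measurable f) (hfi : Integrable f)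
    (hfb : ∃ B : ℝ, ∀ x, ‖f x‖ ≤ B) (ξ : EE (a + b)) : 𝓕 (A2 a b L f) ξ = A2 a b L (𝓕 f) ξ := by
  obtain ⟨A, hA⟩ := hfb
  have hm := A2_meas hZB hb hL f hfm
  have hint := A2_integrable hZN hZB hb hL f hfm hfi
  set η : EE b := p2 a b ξ with hηdef
  have hθ : (‖η‖⁻¹ • η) = 0 ∨ ‖‖η‖⁻¹ • η‖ = 1 := by
    by_cases h0 : η = 0
    · left
      simp [h0]
    · right
      rw [norm_smul, norm_inv, norm_norm, inv_mul_cancel₀ (norm_ne_zero_iff.2 h0)]
  have hec : Continuous fun x : EE (a + b) => e (-inner ℝ x ξ) :=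
    continuous_e.comp (by fun_prop)
  -- the left side
  have hL1 : AEStronglyMeasurable (fun x : EE (a + b) => e (-inner ℝ x ξ) * A2 a b L f x) :=
    (hec.aestronglyMeasurable).mul hm.aestronglyMeasurable
  have hLi : Integrable (fun x : EE (a + b) => e (-inner ℝ x ξ) * A2 a b L f x) := by
    apply hint.bdd_mul (c := 1)
    · exact hec.aestronglyMeasurable
    · exact Filter.Eventually.of_forall (fun ζ => (norm_e _).le)
  rw [Pool.Agent.H19.LS.fourier_e, ← integral_mp (mp_cyl2 a b hb) hL1]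
  have hLi' : Integrable (fun q : Sp b × (Ioi (0 : ℝ) × EE a) =>
      e (-inner ℝ (jm a b q.2.2 ((q.2.1 : ℝ) • (q.1 : EE b))) ξ) *
        A2 a b L f (jm a b q.2.2 ((q.2.1 : ℝ) • (q.1 : EE b))))
      ((sg b).prod ((nu b).prod volume)) :=
    (mp_cyl2 a b hb).integrable_comp_of_integrable hLi
  rw [integral_prod_symm _ hLi']
  -- the right side
  let J : EE (a + b) → ℂ := fun x =>
    ∫ w : Sp b, ((zk b L (‖η‖⁻¹ • η) (w : EE b) : ℝ) : ℂ) *
      e (-inner ℝ x (jm a b (p1 a b ξ) (‖η‖ • (w : EE b)))) ∂(sg b)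
  have hzi := Pool.Agent.H31.BR.zk_integrable hZB hZN hb hL (‖η‖⁻¹ • η) hθ
  have hjc : Continuous fun q : EE (a + b) × Sp b =>
      e (-inner ℝ q.1 (jm a b (p1 a b ξ) (‖η‖ • (q.2 : EE b)))) := by
    apply continuous_e.comp
    have h3 : Continuous fun q : EE (a + b) × Sp b =>
        jm a b (p1 a b ξ) (‖η‖ • (q.2 : EE b)) := by
      have h4 : Continuous fun q : EE (a + b) × Sp b =>
          ((p1 a b ξ, ‖η‖ • (q.2 : EE b)) : EE a × EE b) := by
        refine Continuous.prodMk continuous_const ?_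
        have h5 : Continuous fun q : EE (a + b) × Sp b => (q.2 : EE b) :=
          continuous_subtype_val.comp continuous_snd
        exact h5.const_smul ‖η‖
      exact (cont_jm a b).comp h4
    exact (continuous_fst.inner h3).neg
  have hJm : StronglyMeasurable J := by
    have h1 : StronglyMeasurable fun q : EE (a + b) × Sp b =>
        ((zk b L (‖η‖⁻¹ • η) (q.2 : EE b) : ℝ) : ℂ) *
          e (-inner ℝ q.1 (jm a b (p1 a b ξ) (‖η‖ • (q.2 : EE b)))) := by
      have h2 : Measurable fun w : Sp b => ((zk b L (‖η‖⁻¹ • η) (w : EE b) : ℝ) : ℂ) :=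
        (Pool.Agent.H31.BR.zk_slice hZB hb hL _).complex_ofReal
      exact ((h2.comp measurable_snd).mul hjc.measurable).stronglyMeasurable
    exact h1.integral_prod_right
  have hJb : ∀ x, ‖J x‖ ≤ ∫ w : Sp b, ‖((zk b L (‖η‖⁻¹ • η) (w : EE b) : ℝ) : ℂ)‖ ∂(sg b) := by
    intro x
    refine (norm_integral_le_integral_norm _).trans (le_of_eq ?_)
    refine integral_congr_ae (ae_of_all _ fun w => ?_)
    simp only
    rw [norm_mul, norm_e, mul_one]
  have hJF : Integrable (fun x => J x * f x) :=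
    hfi.bdd_mul (c := _) hJm.aestronglyMeasurable (ae_of_all _ hJb)
  have hR : A2 a b L (𝓕 f) ξ = ∫ x : EE (a + b), J x * f x := by
    unfold A2
    simp_rw [Pool.Agent.H19.LS.fourier_e, ← integral_const_mul]
    rw [integral_integral_swap]
    · refine integral_congr_ae (ae_of_all _ fun x => ?_)
      simp only
      rw [← integral_mul_const]
      refine integral_congr_ae (ae_of_all _ fun w => ?_)
      simp only [mul_assoc]
      rfl
    · have h1 : Integrable (fun q : Sp b × EE (a + b) =>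
          ((zk b L (‖η‖⁻¹ • η) (q.1 : EE b) : ℝ) : ℂ) * f q.2) ((sg b).prod volume) :=
        hzi.mul_prod hfi
      have h2 : Integrable (fun q : Sp b × EE (a + b) =>
          e (-inner ℝ q.2 (jm a b (p1 a b ξ) (‖η‖ • (q.1 : EE b)))) *
            (((zk b L (‖η‖⁻¹ • η) (q.1 : EE b) : ℝ) : ℂ) * f q.2)) ((sg b).prod volume) := by
        apply h1.bdd_mul (c := 1)
        · exact (hjc.comp continuous_swap).aestronglyMeasurable
        · exact Filter.Eventually.of_forall (fun ζ => (norm_e _).le)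
      refine h2.congr (ae_of_all _ fun q => ?_)
      simp only [Function.uncurry]
      show _ = ((zk b L (‖η‖⁻¹ • η) (q.1 : EE b) : ℝ) : ℂ) * _
      ring
  rw [hR, ← integral_mp (mp_cyl2 a b hb) hJF.1]
  have hJF' : Integrable (fun q : Sp b × (Ioi (0 : ℝ) × EE a) =>
      J (jm a b q.2.2 ((q.2.1 : ℝ) • (q.1 : EE b))) *
        f (jm a b q.2.2 ((q.2.1 : ℝ) • (q.1 : EE b)))) ((sg b).prod ((nu b).prod volume)) :=
    (mp_cyl2 a b hb).integrable_comp_of_integrable hJF
  rw [integral_prod_symm _ hJF']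
  refine integral_congr_ae (ae_of_all _ fun r => ?_)
  obtain ⟨ρ, z⟩ := r
  have hρ : 0 < (ρ : ℝ) := ρ.2
  have hAL : ∀ w : Sp b, A2 a b L f (jm a b z ((ρ : ℝ) • (w : EE b))) =
      ∫ w' : Sp b, ((zk b L (w : EE b) (w' : EE b) : ℝ) : ℂ) *
        f (jm a b z ((ρ : ℝ) • (w' : EE b))) ∂(sg b) := by
    intro w
    rw [A2_def, dir2_jm a b hρ, norm_p2_jm a b hρ.le, p1_jm]
  have hJc : ∀ w' : Sp b, J (jm a b z ((ρ : ℝ) • (w' : EE b))) =
      ∫ w : Sp b, e (-((ρ : ℝ) * inner ℝ (w : EE b) η + inner ℝ z (p1 a b ξ))) *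
        ((zk b L (w : EE b) (w' : EE b) : ℝ) : ℂ) ∂(sg b) := by
    intro w'
    rw [← Pool.Agent.H31.BR.key hZC hZB hZN hb hL η (ρ : ℝ) w' (inner ℝ z (p1 a b ξ))]
    refine integral_congr_ae (ae_of_all _ fun w => ?_)
    simp only
    rw [inner_p a b, p1_jm, p2_jm, p1_jm, p2_jm, inner_smul_left, inner_smul_right]
    simp only [conj_trivial]
    rw [mul_assoc (ρ : ℝ), add_comm (inner ℝ z (p1 a b ξ))]
  simp only
  simp_rw [hAL, hJc, ← integral_const_mul, ← integral_mul_const]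
  rw [integral_integral_swap]
  · refine integral_congr_ae (ae_of_all _ fun w' => ?_)
    refine integral_congr_ae (ae_of_all _ fun w => ?_)
    simp only
    rw [inner_p a b, p1_jm, p2_jm, inner_smul_left, add_comm (inner ℝ z (p1 a b ξ))]
    simp only [conj_trivial]
    ring
  · obtain ⟨C, hC⟩ := hZB b hb
    obtain ⟨hC1, hC2, hC3, hC4, -⟩ := hC L hL
    have hmm : Measurable fun q : Sp b × Sp b =>
        e (-inner ℝ (jm a b z ((ρ : ℝ) • (q.1 : EE b))) ξ) *
        (((zk b L (q.1 : EE b) (q.2 : EE b) : ℝ) : ℂ) *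
          f (jm a b z ((ρ : ℝ) • (q.2 : EE b)))) := by
      have hzz : Measurable fun q : Sp b × Sp b => zk b L (q.1 : EE b) (q.2 : EE b) :=
        Pool.Agent.H31.BR.comp2 (zk b L) hC1 (fun q : Sp b × Sp b => (q.1 : EE b))
          (fun q : Sp b × Sp b => (q.2 : EE b))
          (measurable_subtype_coe.comp measurable_fst)
          (measurable_subtype_coe.comp measurable_snd)
      have hj : Continuous fun w : Sp b => jm a b z ((ρ : ℝ) • (w : EE b)) := by
        have h2 : Continuous fun w : Sp b => ((z, (ρ : ℝ) • (w : EE b)) : EE a × EE b) :=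
          Continuous.prodMk continuous_const (continuous_subtype_val.const_smul (ρ : ℝ))
        exact (cont_jm a b).comp h2
      have hj1 : Measurable fun q : Sp b × Sp b =>
          e (-inner ℝ (jm a b z ((ρ : ℝ) • (q.1 : EE b))) ξ) := by
        have : Continuous fun w : Sp b => e (-inner ℝ (jm a b z ((ρ : ℝ) • (w : EE b))) ξ) :=
          continuous_e.comp (hj.inner continuous_const).neg
        exact this.measurable.comp measurable_fst
      have hj2 : Measurable fun q : Sp b × Sp b =>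
          ((zk b L (q.1 : EE b) (q.2 : EE b) : ℝ) : ℂ) := by
        exact hzz.complex_ofReal
      have hj3 : Measurable fun q : Sp b × Sp b => f (jm a b z ((ρ : ℝ) • (q.2 : EE b))) := by
        have : Measurable fun w : Sp b => f (jm a b z ((ρ : ℝ) • (w : EE b))) :=
          hfm.comp hj.measurable
        exact this.comp measurable_snd
      exact hj1.mul (hj2.mul hj3)
    refine Integrable.of_bound hmm.aestronglyMeasurable (C * L ^ (b - 1) * A)
      (ae_of_all _ fun q => ?_)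
    rw [Function.uncurry, norm_mul, norm_e, one_mul, norm_mul, Complex.norm_real,
      Real.norm_of_nonneg (hC3 _ _)]
    exact mul_le_mul (hC4 _ _ (norm_sp _) (norm_sp _)) (hA _) (norm_nonneg _)
      ((hC3 _ _).trans (hC4 _ _ (norm_sp q.1) (norm_sp q.2)))

/-- all items, for the average in the second block -/
theorem am2 (hZN : T_ZN) (hZB : T_ZB) (hZC : T_ZC) : Pool.Agent.H93.AR.T_AM2 := by
  intro a b L hb hL
  refine ⟨fun f hf => A2_meas hZB hb hL f hf, ?_, fun f p hf hp => A2_lp hZN hZB hb hL f hf hp,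
    fun f hf hfi => A2_integrable hZN hZB hb hL f hf hfi, ?_, ?_,
    fun f hf hfi hfb ξ => A2_four hZC hZB hZN hb hL f hf hfi hfb ξ⟩
  · intro f A hf hA x
    rw [A2_def]
    have h1 : Integrable (fun w : Sp b => zk b L (dir2 a b x) (w : EE b) * A) (sg b) :=
      (Pool.Agent.H86.AR.zk_integrable hZN hZB hb hL (dir2_cases a b x)).mul_const A
    have h2 := norm_integral_le_of_norm_le (μ := sg b)
      (f := fun w : Sp b => ((zk b L (dir2 a b x) (w : EE b) : ℝ) : ℂ) *
        f (jm a b (p1 a b x) (‖p2 a b x‖ • (w : EE b)))) h1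
      (Filter.Eventually.of_forall fun w => by
        rw [norm_mul, Complex.norm_real,
          Real.norm_of_nonneg (Pool.Agent.H86.AR.zk_nonneg hZB hb hL _ _)]
        exact mul_le_mul_of_nonneg_left (hA _) (Pool.Agent.H86.AR.zk_nonneg hZB hb hL _ _))
    rw [integral_mul_const, zk_integral hZN hZB hb hL (dir2_cases a b x), one_mul] at h2
    exact h2
  · intro f c x
    rw [A2_def, A2_def, ← integral_const_mul]
    apply integral_congr_ae
    refine Filter.Eventually.of_forall fun w => ?_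
    simp only [norm_p2_jm a b (norm_nonneg (p2 a b x)), p1_jm]
    ring
  · rintro f g hf hg ⟨A, hA⟩ ⟨B, hB⟩ x
    rw [A2_def, A2_def, A2_def, ← integral_sub (A2_int hZN hZB hb hL f hf hA x)
      (A2_int hZN hZB hb hL g hg hB x)]
    apply integral_congr_ae
    exact Filter.Eventually.of_forall fun w => by simp only []; ring

/-- AM2 -/
theorem pf_am2 (_hJB : Pool.Agent.H93.AR.T_JB) (hZN : T_ZN) (hZB : T_ZB) (hZC : T_ZC) :
    Pool.Agent.H93.AR.T_AM2 := am2 hZN hZB hZC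

end Pool.Agent.H54.BR
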