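import Pool.Agent.H79.BR.Targets
import Pool.Agent.H19.LS.PLE

/-! Module CPZ of the board br_modules: Plancherel in the last variable. -/

set_option autoImplicit false

namespace Pool.Agent.H54.BR

open MeasureTheory Set FourierTransform
open Pool.Agent.H83.LS Pool.Agent.H93.AR Pool.Agent.H54.LS Pool.Agent.H14.LS Pool.Agent.H83.AR
open Pool.Agent.H79.BR
open scoped ENNReal NNReal

private theorem e_add (x y : ℝ) : e (x + y) = e x * e y := by
  unfold e
  rw [← Complex.exp_add]
  congr 1
  push_cast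
  ring

private theorem norm_e (x : ℝ) : ‖e x‖ = 1 := Complex.norm_exp_ofReal_mul_I _

private theorem continuous_e : Continuous e := by
  unfold e
  fun_prop

theorem pf_cpz : T_CPZ := by
  intro n A R G y hG hA hR
  have hsm : Measurable (fun q : EE n × ℝ => G (jo q.1 q.2)) :=
    hG.comp (continuous_jo (n := n)).measurable
  have hA0 : 0 ≤ A := (norm_nonneg _).trans (hA 0)
  set f : EE n × ℝ → ℂ := fun q => e (inner ℝ y q.1) * G (jo q.1 q.2) with hf
  have hfm : Measurable f := by
    apply Measurable.mul _ hsm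
    exact (continuous_e.comp (by fun_prop)).measurable
  have hfb : ∀ q, ‖f q‖ ≤ A := by
    intro q
    rw [hf]
    simp only [norm_mul, norm_e, one_mul]
    exact hA _
  have hfz : ∀ q : EE n × ℝ, q ∉ Metric.closedBall (0 : EE n) |R| ×ˢ Icc (-|R|) |R| → f q = 0 := by
    intro q hq
    have hlt : R < ‖jo q.1 q.2‖ := by
      by_contra hle
      apply hq
      have h1 : ‖jo q.1 q.2‖ ≤ |R| := (not_lt.mp hle).trans (le_abs_self R)
      have h2 : ‖q.1‖ ^ 2 + q.2 ^ 2 ≤ |R| ^ 2 := by
        rw [← jo_norm_sq]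
        exact pow_le_pow_left₀ (norm_nonneg _) h1 2
      refine ⟨?_, ?_⟩
      · rw [mem_closedBall_zero_iff]
        exact abs_le_of_sq_le_sq' (by nlinarith [sq_nonneg q.2]) (abs_nonneg R) |>.2
      · rw [mem_Icc]
        exact abs_le_of_sq_le_sq' (by nlinarith [sq_nonneg ‖q.1‖]) (abs_nonneg R)
    rw [hf]
    simp only [hR _ hlt, mul_zero]
  have hK : MeasurableSet (Metric.closedBall (0 : EE n) |R| ×ˢ Icc (-|R|) |R|) :=
    Metric.isClosed_closedBall.measurableSet.prod measurableSet_Icc
  have hKf : (volume.prod volume : Measure (EE n × ℝ))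
      (Metric.closedBall (0 : EE n) |R| ×ˢ Icc (-|R|) |R|) < ⊤ := by
    rw [Measure.prod_prod]
    exact ENNReal.mul_lt_top (measure_closedBall_lt_top) (by simp)
  have hfi : Integrable f (volume.prod volume) := by
    have h1 : IntegrableOn f (Metric.closedBall (0 : EE n) |R| ×ˢ Icc (-|R|) |R|)
        (volume.prod volume) :=
      IntegrableOn.of_bound hKf hfm.aestronglyMeasurable A (Filter.Eventually.of_forall hfb)
    rwa [integrableOn_iff_integrable_of_support_subset] at h1
    intro q hq
    by_contra hn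
    exact hq (hfz q hn)
  set g : ℝ → ℂ := fun ζ => ∫ η : EE n, f (η, ζ) with hg
  have hgi : Integrable g := hfi.integral_prod_right
  have hgb : ∀ ζ, ‖g ζ‖ ≤ A * (volume (Metric.closedBall (0 : EE n) |R|)).toReal := by
    intro ζ
    have e1 : g ζ = ∫ η in Metric.closedBall (0 : EE n) |R|, f (η, ζ) := by
      rw [hg]
      simp only
      rw [setIntegral_eq_integral_of_forall_compl_eq_zero]
      intro η hη
      exact hfz _ (fun h => hη h.1)
    rw [e1]
    exact norm_setIntegral_le_of_norm_le_const measure_closedBall_lt_top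
      (fun η _ => hfb (η, ζ))
  have hg2 : MemLp g 2 := by
    apply Pool.Agent.H19.LS.memLp_two_of g hgi.1
    have h1 : ∫⁻ ζ, ‖g ζ‖ₑ ^ 2 ≤
        ∫⁻ ζ, ENNReal.ofReal (A * (volume (Metric.closedBall (0 : EE n) |R|)).toReal) * ‖g ζ‖ₑ := by
      refine lintegral_mono fun ζ => ?_
      rw [sq]
      refine mul_le_mul_left ?_ _
      rw [← ofReal_norm]
      exact ENNReal.ofReal_le_ofReal (hgb ζ)
    refine ne_top_of_le_ne_top ?_ h1
    rw [lintegral_const_mul' _ _ ENNReal.ofReal_ne_top]
    exact ENNReal.mul_ne_top ENNReal.ofReal_ne_top hgi.2.ne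
  have hpl := Pool.Agent.H19.LS.plancherelE g hgi hg2
  have hint : ∀ z : ℝ, ∫ ξ : EE (n + 1), e (inner ℝ (jo y z) ξ) * G ξ = 𝓕 g (-z) := by
    intro z
    have e1 : ∫ ξ : EE (n + 1), e (inner ℝ (jo y z) ξ) * G ξ =
        ∫ q : EE n × ℝ, e (z * q.2) * f q ∂(volume.prod volume) := by
      have hm : Measurable (fun ξ : EE (n + 1) => e (inner ℝ (jo y z) ξ) * G ξ) :=
        ((continuous_e.comp (by fun_prop)).measurable).mul hG
      conv_lhs => rw [← (mp_jo n).map_eq]
      rw [integral_map (mp_jo n).measurable.aemeasurable hm.aestronglyMeasurable]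
      refine integral_congr_ae (Filter.Eventually.of_forall fun q => ?_)
      simp only [hf, jo_inner, e_add]
      ring
    have hfi2 : Integrable (fun q : EE n × ℝ => e (z * q.2) * f q) (volume.prod volume) := by
      refine hfi.mono ?_ (Filter.Eventually.of_forall fun q => ?_)
      · exact (((continuous_e.comp (by fun_prop)).measurable).mul hfm).aestronglyMeasurable
      · rw [norm_mul, norm_e, one_mul]
    rw [e1, integral_prod_symm _ hfi2, Real.fourier_eq']
    refine integral_congr_ae (Filter.Eventually.of_forall fun ζ => ?_)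
    simp only [hg]
    rw [integral_const_mul, smul_eq_mul]
    congr 1
    unfold e
    congr 2
    have : (inner ℝ ζ (-z) : ℝ) = -(z * ζ) := by
      simp [mul_comm]
    rw [this]
    push_cast
    ring
  simp_rw [hint]
  have hneg : ∫⁻ z : ℝ, ‖𝓕 g (-z)‖ₑ ^ 2 = ∫⁻ z : ℝ, ‖𝓕 g z‖ₑ ^ 2 :=
    lintegral_neg_eq_self (fun z => ‖𝓕 g z‖ₑ ^ 2)
  rw [hneg, hpl]

end Pool.Agent.H54.BR
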