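import Pool.Agent.H57.LS.GBase
import Pool.Agent.H14.BR.GO2

/-! # GMB, part 1: the abstract Schur argument with a general inert variable -/

set_option autoImplicit false

namespace Pool.Agent.H54.BR

open MeasureTheory Set
open Pool.Agent.H83.LS
open Pool.Agent.H14.BR (cs_wt meas_left)
open scoped ENNReal NNReal

variable {W : Type*} [MeasurableSpace W] {Z : Type*} [MeasureSpace Z]
  [SFinite (volume : Measure Z)]

/-- Schur test -/
lemma schurZ (hY : T_YG) (κ : ℝ → ℝ≥0∞) (H : ℝ × Z → ℝ≥0∞) (p : ℝ) (hp : 1 ≤ p) (hκ : Measurable κ)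
    (hκI : ∫⁻ u, κ u ≠ ⊤) (hH : Measurable H) :
    ∫⁻ x : ℝ × Z, (∫⁻ ρ : ℝ, (κ (x.1 - ρ) + κ (x.1 + ρ)) * H (ρ, x.2)) ^ p ≤
      2 ^ p * ((∫⁻ u, κ u) ^ p * ∫⁻ y, H y ^ p) := by
  have hm : Measurable (fun x : ℝ × Z => (∫⁻ ρ : ℝ, (κ (x.1 - ρ) + κ (x.1 + ρ)) * H (ρ, x.2)) ^ p) := by
    apply Measurable.pow_const
    apply Measurable.lintegral_prod_right' (f := fun q : (ℝ × Z) × ℝ =>
      (κ (q.1.1 - q.2) + κ (q.1.1 + q.2)) * H (q.2, q.1.2))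
    fun_prop
  rw [Measure.volume_eq_prod, lintegral_prod_symm _ hm.aemeasurable, ← Measure.volume_eq_prod,
    Measure.volume_eq_prod, lintegral_prod_symm _ (hH.pow_const p).aemeasurable,
    ← lintegral_const_mul' _ _ ?_, ← lintegral_const_mul' _ _ ?_]
  · apply lintegral_mono
    intro z
    show ∫⁻ x : ℝ, (∫⁻ ρ : ℝ, (κ (x - ρ) + κ (x + ρ)) * H (ρ, z)) ^ p ≤
      2 ^ p * ((∫⁻ u, κ u) ^ p * ∫⁻ x, H (x, z) ^ p)
    have h1 : Measurable (fun ρ => H (ρ, z)) := by fun_prop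
    have e1 := hY ℝ volume κ (fun ρ => H (ρ, z)) p hκ h1 hp
    have e2 := hY ℝ volume κ (fun ρ => H (-ρ, z)) p hκ (by fun_prop) hp
    have e3 : ∫⁻ y, H (-y, z) ^ p = ∫⁻ y, H (y, z) ^ p := by
      have := lintegral_neg_eq_self (fun y : ℝ => H (y, z) ^ p) (μ := volume)
      exact this
    have e4 : ∀ x : ℝ, ∫⁻ ρ, κ (x - ρ) * H (-ρ, z) = ∫⁻ ρ, κ (x + ρ) * H (ρ, z) := by
      intro x
      have := lintegral_neg_eq_self (fun ρ : ℝ => κ (x + ρ) * H (ρ, z)) (μ := volume)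
      simpa [sub_eq_add_neg] using this
    simp only [e4] at e2
    rw [e3] at e2
    calc ∫⁻ x : ℝ, (∫⁻ ρ : ℝ, (κ (x - ρ) + κ (x + ρ)) * H (ρ, z)) ^ p
        ≤ ∫⁻ x : ℝ, 2 ^ (p - 1) * ((∫⁻ ρ : ℝ, κ (x - ρ) * H (ρ, z)) ^ p +
            (∫⁻ ρ : ℝ, κ (x + ρ) * H (ρ, z)) ^ p) := by
          apply lintegral_mono
          intro x
          show (∫⁻ ρ : ℝ, (κ (x - ρ) + κ (x + ρ)) * H (ρ, z)) ^ p ≤ _
          have : ∫⁻ ρ : ℝ, (κ (x - ρ) + κ (x + ρ)) * H (ρ, z) =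
              (∫⁻ ρ : ℝ, κ (x - ρ) * H (ρ, z)) + ∫⁻ ρ : ℝ, κ (x + ρ) * H (ρ, z) := by
            rw [← lintegral_add_left (by fun_prop)]
            simp only [add_mul]
          rw [this]
          exact ENNReal.rpow_add_le_mul_rpow_add_rpow _ _ hp
      _ = 2 ^ (p - 1) * ((∫⁻ x : ℝ, (∫⁻ ρ : ℝ, κ (x - ρ) * H (ρ, z)) ^ p) +
            ∫⁻ x : ℝ, (∫⁻ ρ : ℝ, κ (x + ρ) * H (ρ, z)) ^ p) := by
          rw [lintegral_const_mul' _ _ (ENNReal.rpow_ne_top_of_nonneg (by linarith) (by norm_num)),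
            lintegral_add_left]
          apply Measurable.pow_const
          apply Measurable.lintegral_prod_right' (f := fun q : ℝ × ℝ =>
            κ (q.1 - q.2) * H (q.2, z))
          fun_prop
      _ ≤ 2 ^ (p - 1) * (((∫⁻ u, κ u) ^ p * ∫⁻ y, H (y, z) ^ p) +
            ((∫⁻ u, κ u) ^ p * ∫⁻ y, H (y, z) ^ p)) := by gcongr
      _ = 2 ^ p * ((∫⁻ u, κ u) ^ p * ∫⁻ x, H (x, z) ^ p) := by
          rw [← two_mul, ← mul_assoc]
          congr 1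
          calc (2 : ℝ≥0∞) ^ (p - 1) * 2 = 2 ^ (p - 1) * 2 ^ (1 : ℝ) := by rw [ENNReal.rpow_one]
            _ = 2 ^ p := by
              rw [← ENNReal.rpow_add _ _ (by norm_num) (by norm_num)]
              congr 1; ring
  all_goals first
    | exact ENNReal.rpow_ne_top_of_nonneg (by linarith) hκI
    | exact ENNReal.rpow_ne_top_of_nonneg (by linarith) (by norm_num)



/-- the one dimensional operator -/
noncomputable def TZ (κ : ℝ → ℝ≥0∞) (H : W → ℝ × Z → ℝ≥0∞) (w : W) (x : ℝ × Z) : ℝ≥0∞ :=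
  ∫⁻ ρ : ℝ, (κ (x.1 - ρ) + κ (x.1 + ρ)) * H w (ρ, x.2)

theorem measurable_TZ {κ : ℝ → ℝ≥0∞} {H : W → ℝ × Z → ℝ≥0∞} (hκ : Measurable κ)
    (hH : Measurable fun q : W × (ℝ × Z) => H q.1 q.2) :
    Measurable fun q : W × (ℝ × Z) => TZ κ H q.1 q.2 := by
  unfold TZ
  apply Measurable.lintegral_prod_right' (f := fun q : (W × (ℝ × Z)) × ℝ =>
    (κ (q.1.2.1 - q.2) + κ (q.1.2.1 + q.2)) * H q.1.1 (q.2, q.1.2.2))
  have h1 : Measurable fun q : (W × (ℝ × Z)) × ℝ =>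
      ((q.1.1, (q.2, q.1.2.2)) : W × (ℝ × Z)) := by fun_prop
  have h2 : Measurable fun q : (W × (ℝ × Z)) × ℝ => H q.1.1 (q.2, q.1.2.2) := hH.comp h1
  have h3 : Measurable fun q : (W × (ℝ × Z)) × ℝ =>
    (κ (q.1.2.1 - q.2) + κ (q.1.2.1 + q.2)) := by fun_prop
  exact h3.mul h2

omit [MeasurableSpace W] in
theorem TZ_le {κ : ℝ → ℝ≥0∞} {H : W → ℝ × Z → ℝ≥0∞} (hκ : Measurable κ) {A : ℝ≥0∞} (hA : A ≠ ⊤)
    (hH : ∀ w y, H w y ≤ A) (w : W) (x : ℝ × Z) : TZ κ H w x ≤ 2 * (∫⁻ u, κ u) * A := by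
  unfold TZ
  calc ∫⁻ ρ : ℝ, (κ (x.1 - ρ) + κ (x.1 + ρ)) * H w (ρ, x.2)
      ≤ ∫⁻ ρ : ℝ, (κ (x.1 - ρ) + κ (x.1 + ρ)) * A :=
        lintegral_mono fun ρ => by gcongr; exact hH _ _
    _ = (∫⁻ ρ : ℝ, (κ (x.1 - ρ) + κ (x.1 + ρ))) * A := by
        rw [lintegral_mul_const' _ _ hA]
    _ = 2 * (∫⁻ u, κ u) * A := by
        rw [lintegral_add_left (by fun_prop), lintegral_sub_left_eq_self κ x.1,
          lintegral_add_left_eq_self κ x.1, two_mul]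

/-- the pointwise bound, abstract form -/
theorem abs_ptZ (σ : Measure W) [IsFiniteMeasure σ] (κ : ℝ → ℝ≥0∞) (H : W → ℝ × Z → ℝ≥0∞)
    (b : W → ℝ≥0∞) (P : ℝ → W → ℂ) (x : ℝ × Z) (hκ : Measurable κ)
    (hH : Measurable fun q : W × (ℝ × Z) => H q.1 q.2) (hb : Measurable b)
    (hP : ∀ ρ : ℝ, 0 < ρ → ∀ w, ‖P ρ w‖ₑ ≤ b w * ((κ (x.1 - ρ) + κ (x.1 + ρ)) * H w (ρ, x.2))) :
    ‖∫ ρ in Ioi (0 : ℝ), ∫ w, P ρ w ∂σ‖ₑ ≤ ∫⁻ w, b w * TZ κ H w x ∂σ := by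
  have hm : Measurable fun q : ℝ × W =>
      b q.2 * ((κ (x.1 - q.1) + κ (x.1 + q.1)) * H q.2 (q.1, x.2)) := by
    have h1 : Measurable fun q : ℝ × W => ((q.2, (q.1, x.2)) : W × (ℝ × Z)) := by fun_prop
    have h2 : Measurable fun q : ℝ × W => H q.2 (q.1, x.2) := hH.comp h1
    have h3 : Measurable fun q : ℝ × W => κ (x.1 - q.1) + κ (x.1 + q.1) := by fun_prop
    exact (hb.comp measurable_snd).mul (h3.mul h2)
  calc ‖∫ ρ in Ioi (0 : ℝ), ∫ w, P ρ w ∂σ‖ₑ ≤ ∫⁻ ρ in Ioi (0 : ℝ), ‖∫ w, P ρ w ∂σ‖ₑ :=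
        enorm_integral_le_lintegral_enorm _
    _ ≤ ∫⁻ ρ in Ioi (0 : ℝ), ∫⁻ w, b w * ((κ (x.1 - ρ) + κ (x.1 + ρ)) * H w (ρ, x.2)) ∂σ := by
        apply setLIntegral_mono' measurableSet_Ioi
        intro ρ hρ
        exact (enorm_integral_le_lintegral_enorm _).trans (lintegral_mono fun w => hP ρ hρ w)
    _ ≤ ∫⁻ ρ : ℝ, ∫⁻ w, b w * ((κ (x.1 - ρ) + κ (x.1 + ρ)) * H w (ρ, x.2)) ∂σ :=
        setLIntegral_le_lintegral _ _
    _ = ∫⁻ w, ∫⁻ ρ : ℝ, b w * ((κ (x.1 - ρ) + κ (x.1 + ρ)) * H w (ρ, x.2)) ∂volume ∂σ := by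
        rw [lintegral_lintegral_swap]
        exact hm.aemeasurable
    _ = _ := by
        refine lintegral_congr fun w => ?_
        unfold TZ
        rw [lintegral_const_mul]
        have h1 : Measurable fun ρ : ℝ => ((w, (ρ, x.2)) : W × (ℝ × Z)) := by fun_prop
        have h2 : Measurable fun ρ : ℝ => H w (ρ, x.2) := hH.comp h1
        have h3 : Measurable fun ρ : ℝ => κ (x.1 - ρ) + κ (x.1 + ρ) := by fun_prop
        exact h3.mul h2

theorem abs_schurZ (hY : T_YG) (σ : Measure W) [IsFiniteMeasure σ] (κ : ℝ → ℝ≥0∞)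
    (H : W → ℝ × Z → ℝ≥0∞) (b : W → W → ℝ≥0∞) (G : W → ℝ × Z → ℝ≥0∞) (CZ : ℝ≥0∞)
    (S : Set (ℝ × Z)) (hS : MeasurableSet S) (hκ : Measurable κ) (hκt : ∫⁻ u, κ u ≠ ⊤)
    (hH : Measurable fun q : W × (ℝ × Z) => H q.1 q.2)
    (hb : Measurable fun q : W × W => b q.1 q.2) (hb1 : ∀ v, ∫⁻ w, b v w ∂σ ≤ CZ)
    (hb2 : ∀ w, ∫⁻ v, b v w ∂σ ≤ CZ)
    (hG : ∀ v, ∀ x ∈ S, G v x ≤ ∫⁻ w, b v w * TZ κ H w x ∂σ) :
    (∀ A : ℝ≥0∞, A ≠ ⊤ → (∀ w y, H w y ≤ A) → ∀ v, ∀ x ∈ S,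
      G v x ≤ CZ * (2 * (∫⁻ u, κ u) * A)) ∧
    (∫⁻ v, ∫⁻ x in S, G v x ^ 2 ∂volume ∂σ ≤ (CZ * (2 * ∫⁻ u, κ u)) ^ 2 *
      ∫⁻ w, ∫⁻ y, H w y ^ 2 ∂volume ∂σ) ∧
    (∀ K : ℝ≥0∞, (∀ w, ∫⁻ y, H w y ≤ K) → ∀ v, ∫⁻ x in S, G v x ≤
      CZ * (2 * (∫⁻ u, κ u) * K)) := by
  set I := ∫⁻ u, κ u with hI
  have hTm := measurable_TZ hκ hH
  have hTw : ∀ w, Measurable fun x => TZ κ H w x := fun w => hTm.comp (measurable_const.prodMk measurable_id)
  have hTx : ∀ x, Measurable fun w => TZ κ H w x := fun x => hTm.comp (measurable_id.prodMk measurable_const)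
  have hbv : ∀ v, Measurable fun w => b v w := fun v => hb.comp (measurable_const.prodMk measurable_id)
  have hbw : ∀ w, Measurable fun v => b v w := fun w => hb.comp (measurable_id.prodMk measurable_const)
  refine ⟨?_, ?_, ?_⟩
  · intro A hA hHA v x hx
    calc G v x ≤ ∫⁻ w, b v w * TZ κ H w x ∂σ := hG v x hx
      _ ≤ ∫⁻ w, b v w * (2 * I * A) ∂σ :=
          lintegral_mono fun w => by gcongr; exact TZ_le hκ hA hHA w x
      _ = (∫⁻ w, b v w ∂σ) * (2 * I * A) := by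
          rw [lintegral_mul_const _ (hbv v)]
      _ ≤ _ := by gcongr; exact hb1 v
  · have step1 : ∀ v, ∫⁻ x in S, G v x ^ 2 ≤ CZ * ∫⁻ w, b v w * ∫⁻ x, TZ κ H w x ^ 2 ∂volume ∂σ := by
      intro v
      calc ∫⁻ x in S, G v x ^ 2 ≤ ∫⁻ x in S, (∫⁻ w, b v w * TZ κ H w x ∂σ) ^ 2 := by
            apply setLIntegral_mono' hS
            intro x hx
            gcongr
            exact hG v x hx
        _ ≤ ∫⁻ x, (∫⁻ w, b v w * TZ κ H w x ∂σ) ^ 2 := setLIntegral_le_lintegral _ _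
        _ ≤ ∫⁻ x, CZ * ∫⁻ w, b v w * TZ κ H w x ^ 2 ∂σ := by
            apply lintegral_mono
            intro x
            exact (cs_wt σ (b v) (fun w => TZ κ H w x) (hbv v) (hTx x)).trans
              (mul_le_mul_left (hb1 v) _)
        _ = CZ * ∫⁻ x, ∫⁻ w, b v w * TZ κ H w x ^ 2 ∂σ := by
            rw [lintegral_const_mul]
            apply Measurable.lintegral_prod_right' (f := fun q : (ℝ × Z) × W =>
              b v q.2 * TZ κ H q.2 q.1 ^ 2)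
            have h1 : Measurable fun q : (ℝ × Z) × W => TZ κ H q.2 q.1 :=
              hTm.comp (measurable_snd.prodMk measurable_fst)
            exact ((hbv v).comp measurable_snd).mul (h1.pow_const 2)
        _ = CZ * ∫⁻ w, ∫⁻ x, b v w * TZ κ H w x ^ 2 ∂volume ∂σ := by
            congr 1
            rw [lintegral_lintegral_swap]
            have h1 : Measurable fun q : (ℝ × Z) × W => TZ κ H q.2 q.1 :=
              hTm.comp (measurable_snd.prodMk measurable_fst)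
            exact (((hbv v).comp measurable_snd).mul (h1.pow_const 2)).aemeasurable
        _ = CZ * ∫⁻ w, b v w * ∫⁻ x, TZ κ H w x ^ 2 ∂volume ∂σ := by
            congr 1
            refine lintegral_congr fun w => ?_
            rw [lintegral_const_mul _ ((hTw w).pow_const 2)]
    have step2 : ∀ w, ∫⁻ x, TZ κ H w x ^ 2 ≤ (2 * I) ^ 2 * ∫⁻ y, H w y ^ 2 := by
      intro w
      have hHw : Measurable (H w) := hH.comp (measurable_const.prodMk measurable_id)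
      have h := schurZ hY κ (H w) 2 (by norm_num) hκ hκt hHw
      norm_num at h
      rw [mul_pow, mul_assoc, show (2 : ℝ≥0∞) ^ 2 = 4 by norm_num]
      exact h
    have hH2 : Measurable fun w => ∫⁻ y, H w y ^ 2 := by
      apply Measurable.lintegral_prod_right' (f := fun q : W × (ℝ × Z) => H q.1 q.2 ^ 2)
      exact hH.pow_const 2
    calc ∫⁻ v, ∫⁻ x in S, G v x ^ 2 ∂volume ∂σ
        ≤ ∫⁻ v, CZ * ∫⁻ w, b v w * ((2 * I) ^ 2 * ∫⁻ y, H w y ^ 2) ∂σ ∂σ := by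
          apply lintegral_mono
          intro v
          exact (step1 v).trans (mul_le_mul_right (lintegral_mono fun w =>
            mul_le_mul_right (step2 w) _) _)
      _ = CZ * ∫⁻ v, ∫⁻ w, b v w * ((2 * I) ^ 2 * ∫⁻ y, H w y ^ 2) ∂σ ∂σ := by
          rw [lintegral_const_mul]
          apply Measurable.lintegral_prod_right' (f := fun q : W × W =>
            b q.1 q.2 * ((2 * I) ^ 2 * ∫⁻ y, H q.2 y ^ 2))
          exact hb.mul ((hH2.comp measurable_snd).const_mul _)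
      _ = CZ * ∫⁻ w, ∫⁻ v, b v w * ((2 * I) ^ 2 * ∫⁻ y, H w y ^ 2) ∂σ ∂σ := by
          congr 1
          rw [lintegral_lintegral_swap]
          exact (hb.mul ((hH2.comp measurable_snd).const_mul _)).aemeasurable
      _ = CZ * ∫⁻ w, (∫⁻ v, b v w ∂σ) * ((2 * I) ^ 2 * ∫⁻ y, H w y ^ 2) ∂σ := by
          congr 1
          refine lintegral_congr fun w => ?_
          rw [lintegral_mul_const _ (hbw w)]
      _ ≤ CZ * ∫⁻ w, CZ * ((2 * I) ^ 2 * ∫⁻ y, H w y ^ 2) ∂σ := by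
          gcongr with w
          exact hb2 w
      _ = (CZ * (2 * I)) ^ 2 * ∫⁻ w, ∫⁻ y, H w y ^ 2 ∂volume ∂σ := by
          rw [lintegral_const_mul _ (hH2.const_mul _), lintegral_const_mul _ hH2]
          ring
  · intro K hK v
    calc ∫⁻ x in S, G v x ≤ ∫⁻ x in S, ∫⁻ w, b v w * TZ κ H w x ∂σ :=
          setLIntegral_mono' hS (hG v)
      _ ≤ ∫⁻ x, ∫⁻ w, b v w * TZ κ H w x ∂σ := setLIntegral_le_lintegral _ _
      _ = ∫⁻ w, ∫⁻ x, b v w * TZ κ H w x ∂volume ∂σ := by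
          rw [lintegral_lintegral_swap]
          have h1 : Measurable fun q : (ℝ × Z) × W => TZ κ H q.2 q.1 :=
            hTm.comp (measurable_snd.prodMk measurable_fst)
          exact (((hbv v).comp measurable_snd).mul h1).aemeasurable
      _ = ∫⁻ w, b v w * ∫⁻ x, TZ κ H w x ∂volume ∂σ := by
          refine lintegral_congr fun w => ?_
          rw [lintegral_const_mul _ (hTw w)]
      _ ≤ ∫⁻ w, b v w * (2 * I * K) ∂σ := by
          gcongr with w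
          have hHw : Measurable (H w) := hH.comp (measurable_const.prodMk measurable_id)
          have h := schurZ hY κ (H w) 1 le_rfl hκ hκt hHw
          simp only [ENNReal.rpow_one] at h
          refine h.trans ?_
          rw [← mul_assoc]
          gcongr
          exact hK w
      _ = (∫⁻ w, b v w ∂σ) * (2 * I * K) := by rw [lintegral_mul_const _ (hbv v)]
      _ ≤ _ := by gcongr; exact hb1 v

end Pool.Agent.H54.BR
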