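import Pool.Agent.H83.AR.Targets3
import Pool.Agent.H57.LS.GBase
import Pool.Agent.H71.BR.JM
import Pool.Agent.H14.BR.GO1

/-! # GMB, part 2: measurability and cylindrical coordinates -/

set_option autoImplicit false

namespace Pool.Agent.H54.BR

open MeasureTheory Set
open Pool.Agent.H83.AR Pool.Agent.H93.AR Pool.Agent.H83.LS Pool.Agent.H54.LS Pool.Agent.H14.LS
open Pool.Agent.H71.BR
open Pool.Agent.H14.BR (measurable_kz)
open Pool.Agent.H57.LS (measurable_ck ck lintegral_ck contDiff_chi)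
open scoped ENNReal NNReal

/-- cylindrical coordinates, lower integrals -/
theorem lint_cylm (a b : ℕ) (hb : 1 ≤ b) (h : EE (a + b) → ℝ≥0∞) (hh : Measurable h) :
    ∫⁻ x, h x = ∫⁻ w : Sp b, ∫⁻ y : ℝ × EE a, (Ioi (0 : ℝ)).indicator
      (fun ρ => ENNReal.ofReal (ρ ^ (b - 1)) * h (jm a b y.2 (ρ • (w : EE b)))) y.1
        ∂volume ∂(sg b) := by
  have hcm := (mp_cyl2 a b hb).measurable
  have hm2 : Measurable fun q : Sp b × (Ioi (0 : ℝ) × EE a) =>
      h (jm a b q.2.2 ((q.2.1 : ℝ) • (q.1 : EE b))) := hh.comp hcm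
  rw [← (mp_cyl2 a b hb).lintegral_comp hh, lintegral_prod _ hm2.aemeasurable]
  refine lintegral_congr fun w => ?_
  have hm3 : Measurable fun r : Ioi (0 : ℝ) × EE a =>
      h (jm a b r.2 ((r.1 : ℝ) • (w : EE b))) := hm2.comp (measurable_const.prodMk measurable_id)
  rw [lintegral_prod _ hm3.aemeasurable]
  have hjo : Measurable fun q : ℝ × EE a => h (jm a b q.2 (q.1 • (w : EE b))) := by
    refine hh.comp ?_
    have : Continuous fun q : ℝ × EE a => ((q.2, q.1 • (w : EE b)) : EE a × EE b) := by fun_prop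
    exact ((cont_jm a b).comp this).measurable
  have hG : Measurable fun ρ : ℝ => ∫⁻ z : EE a, h (jm a b z (ρ • (w : EE b))) :=
    hjo.lintegral_prod_right'
  have e1 : ∫⁻ ρ : Ioi (0 : ℝ), ∫⁻ z : EE a, h (jm a b z ((ρ : ℝ) • (w : EE b))) ∂volume ∂(nu b) =
      ∫⁻ ρ in Ioi (0 : ℝ), ENNReal.ofReal (ρ ^ (b - 1)) *
        ∫⁻ z : EE a, h (jm a b z (ρ • (w : EE b))) := by
    unfold nu Measure.volumeIoiPow
    have hd : Measurable fun r : Ioi (0 : ℝ) => ENNReal.ofReal ((r : ℝ) ^ (b - 1)) := by fun_prop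
    have hG2 : Measurable fun ρ : Ioi (0 : ℝ) =>
        ∫⁻ z : EE a, h (jm a b z ((ρ : ℝ) • (w : EE b))) :=
      hG.comp measurable_subtype_coe
    rw [lintegral_withDensity_eq_lintegral_mul _ hd hG2]
    simp only [Pi.mul_apply]
    exact lintegral_subtype_comap measurableSet_Ioi
      (fun ρ : ℝ => ENNReal.ofReal (ρ ^ (b - 1)) * ∫⁻ z : EE a, h (jm a b z (ρ • (w : EE b))))
  rw [e1, ← lintegral_indicator measurableSet_Ioi, Measure.volume_eq_prod, lintegral_prod]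
  · refine lintegral_congr fun ρ => ?_
    by_cases hρ : ρ ∈ Ioi (0 : ℝ)
    · simp only [indicator_of_mem hρ]
      rw [lintegral_const_mul' _ _ ENNReal.ofReal_ne_top]
    · simp only [indicator_of_notMem hρ]
      simp
  · apply Measurable.aemeasurable
    have h4 : Measurable fun q : ℝ × EE a =>
        ENNReal.ofReal (q.1 ^ (b - 1)) * h (jm a b q.2 (q.1 • (w : EE b))) :=
      (by fun_prop : Measurable fun q : ℝ × EE a => ENNReal.ofReal (q.1 ^ (b - 1))).mul hjo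
    have h5 : (fun y : ℝ × EE a => (Ioi (0 : ℝ)).indicator
        (fun ρ => ENNReal.ofReal (ρ ^ (b - 1)) * h (jm a b y.2 (ρ • (w : EE b)))) y.1) =
        (Prod.fst ⁻¹' (Ioi (0 : ℝ))).indicator (fun q : ℝ × EE a =>
          ENNReal.ofReal (q.1 ^ (b - 1)) * h (jm a b q.2 (q.1 • (w : EE b)))) := by
      funext y
      simp only [indicator, mem_preimage]
    rw [h5]
    exact h4.indicator (measurable_fst measurableSet_Ioi)

/-- the profile of `f` -/
noncomputable def Frm (a b : ℕ) (f : EE (a + b) → ℂ) (w : Sp b) (y : ℝ × EE a) : ℂ :=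
  ((y.1 ^ (((b : ℝ) - 1) / 2) : ℝ) : ℂ) * f (jm a b y.2 (y.1 • (w : EE b)))

theorem measurable_Frm (a b : ℕ) (f : EE (a + b) → ℂ) (hf : Measurable f) :
    Measurable fun q : Sp b × (ℝ × EE a) => Frm a b f q.1 q.2 := by
  unfold Frm
  apply Measurable.mul
  · exact Complex.measurable_ofReal.comp (by fun_prop)
  · refine hf.comp ?_
    have : Continuous fun q : Sp b × (ℝ × EE a) =>
        ((q.2.2, q.2.1 • (q.1 : EE b)) : EE a × EE b) := by
      fun_prop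
    exact ((cont_jm a b).comp this).measurable

/-- the function `GM` in the coordinates `(x_{a+1}, x')` -/
noncomputable def GP (a b : ℕ) (L Lam : ℝ) (f : EE (a + b) → ℂ) (v : Sp b) (x : ℝ × EE a) : ℂ :=
  ∫ ρ in Ioi (0 : ℝ), ∫ w : Sp b, ((Lam : ℝ) : ℂ) *
    kz b L (fun s => ((chi s : ℝ) : ℂ)) (Lam * x.1) (Lam * ρ) v w *
    (((ρ ^ (((b : ℝ) - 1) / 2) : ℝ) : ℂ) * f (jm a b x.2 (ρ • (w : EE b)))) ∂(sg b)

theorem GM_eq (a b : ℕ) (L Lam : ℝ) (f : EE (a + b) → ℂ) (v : Sp b) (X : EE (a + 1)) :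
    GM a b L Lam f v X = GP a b L Lam f v (X (Fin.last a), pr X) := rfl

theorem measurable_GP (hZB : T_ZB) (a b : ℕ) (hb : 1 ≤ b) (L Lam : ℝ) (hL : 1 ≤ L)
    (f : EE (a + b) → ℂ) (hf : Measurable f) :
    Measurable fun q : Sp b × (ℝ × EE a) => GP a b L Lam f q.1 q.2 := by
  unfold GP
  have hk := measurable_kz hZB b hb L hL (fun σ => ((chi σ : ℝ) : ℂ))
    (Complex.measurable_ofReal.comp contDiff_chi.continuous.measurable)
  have hF := measurable_Frm a b f hf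
  have h1 : StronglyMeasurable fun q : (Sp b × (ℝ × EE a)) × ℝ => ∫ w : Sp b, ((Lam : ℝ) : ℂ) *
      kz b L (fun s => ((chi s : ℝ) : ℂ)) (Lam * q.1.2.1) (Lam * q.2) q.1.1 w *
      (((q.2 ^ (((b : ℝ) - 1) / 2) : ℝ) : ℂ) * f (jm a b q.1.2.2 (q.2 • (w : EE b)))) ∂(sg b) := by
    apply StronglyMeasurable.integral_prod_right
      (f := fun (q : (Sp b × (ℝ × EE a)) × ℝ) (w : Sp b) => ((Lam : ℝ) : ℂ) *
      kz b L (fun s => ((chi s : ℝ) : ℂ)) (Lam * q.1.2.1) (Lam * q.2) q.1.1 w *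
      (((q.2 ^ (((b : ℝ) - 1) / 2) : ℝ) : ℂ) * f (jm a b q.1.2.2 (q.2 • (w : EE b)))))
    apply Measurable.stronglyMeasurable
    apply Measurable.mul
    · apply Measurable.const_mul
      exact hk.comp (f := fun q : ((Sp b × (ℝ × EE a)) × ℝ) × Sp b =>
        (((Lam * q.1.1.2.1, Lam * q.1.2), ((q.1.1.1 : EE b), (q.2 : EE b))) :
          (ℝ × ℝ) × (EE b × EE b))) (by fun_prop)
    · exact hF.comp (f := fun q : ((Sp b × (ℝ × EE a)) × ℝ) × Sp b =>
        ((q.2, (q.1.2, q.1.1.2.2)) : Sp b × (ℝ × EE a))) (by fun_prop)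
  have h2 : StronglyMeasurable fun q : Sp b × (ℝ × EE a) => ∫ ρ in Ioi (0 : ℝ),
      ∫ w : Sp b, ((Lam : ℝ) : ℂ) *
      kz b L (fun s => ((chi s : ℝ) : ℂ)) (Lam * q.2.1) (Lam * ρ) q.1 w *
      (((ρ ^ (((b : ℝ) - 1) / 2) : ℝ) : ℂ) * f (jm a b q.2.2 (ρ • (w : EE b)))) ∂(sg b) := by
    apply StronglyMeasurable.integral_prod_right
      (f := fun (q : Sp b × (ℝ × EE a)) (ρ : ℝ) => ∫ w : Sp b, ((Lam : ℝ) : ℂ) *
      kz b L (fun s => ((chi s : ℝ) : ℂ)) (Lam * q.2.1) (Lam * ρ) q.1 w *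
      (((ρ ^ (((b : ℝ) - 1) / 2) : ℝ) : ℂ) * f (jm a b q.2.2 (ρ • (w : EE b)))) ∂(sg b))
    exact h1
  exact h2.measurable

end Pool.Agent.H54.BR
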