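import Pool.Agent.H54.BR.GMA
import Pool.Agent.H54.BR.GMB1
import Pool.Agent.H14.BR.GO

/-! # GMB: bounds for `GM` -/

set_option autoImplicit false

namespace Pool.Agent.H54.BR

open MeasureTheory Set
open Pool.Agent.H83.AR Pool.Agent.H93.AR Pool.Agent.H83.LS Pool.Agent.H54.LS Pool.Agent.H14.LS
open Pool.Agent.H71.BR
open Pool.Agent.H14.BR (meas_left bb bb_symm measurable_bb inv_sq_le)
open Pool.Agent.H57.LS (measurable_ck ck lintegral_ck)
open scoped ENNReal NNReal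

/-- modulus of the profile -/
noncomputable def Hm (a b : ℕ) (f : EE (a + b) → ℂ) (w : Sp b) (y : ℝ × EE a) : ℝ≥0∞ :=
  (Ioi (0 : ℝ)).indicator (fun _ => ‖Frm a b f w y‖ₑ) y.1

theorem measurable_Hm (a b : ℕ) (f : EE (a + b) → ℂ) (hf : Measurable f) :
    Measurable fun q : Sp b × (ℝ × EE a) => Hm a b f q.1 q.2 := by
  have h1 := (measurable_Frm a b f hf).enorm
  have h2 : MeasurableSet {q : Sp b × (ℝ × EE a) | 0 < q.2.1} :=
    measurableSet_lt measurable_const (by fun_prop)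
  have h3 : (fun q : Sp b × (ℝ × EE a) => Hm a b f q.1 q.2) =
      {q : Sp b × (ℝ × EE a) | 0 < q.2.1}.indicator (fun q => ‖Frm a b f q.1 q.2‖ₑ) := by
    funext q
    simp only [Hm, indicator, mem_Ioi, mem_ofPred_eq]
  rw [h3]
  exact h1.indicator h2

theorem norm_p2_jm' (a b : ℕ) (w : Sp b) {ρ : ℝ} (hρ : 0 < ρ) (y : EE a) :
    ‖p2 a b (jm a b y (ρ • (w : EE b)))‖ = ρ := by
  rw [p2_jm, norm_smul, norm_sp, mul_one, Real.norm_of_nonneg hρ.le]

theorem norm_Frm {a b : ℕ} (f : EE (a + b) → ℂ) (w : Sp b) {y : ℝ × EE a} (hy : 0 < y.1) :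
    ‖Frm a b f w y‖ = y.1 ^ (((b : ℝ) - 1) / 2) * ‖f (jm a b y.2 (y.1 • (w : EE b)))‖ := by
  unfold Frm
  rw [norm_mul, Complex.norm_real, Real.norm_of_nonneg (Real.rpow_nonneg hy.le _)]

theorem Hm_le {a b : ℕ} {A : ℝ} {f : EE (a + b) → ℂ}
    (hA : ∀ x, ‖p2 a b x‖ ^ (((b : ℝ) - 1) / 2) * ‖f x‖ ≤ A) (w : Sp b) (y : ℝ × EE a) :
    Hm a b f w y ≤ ENNReal.ofReal A := by
  unfold Hm
  by_cases hy : y.1 ∈ Ioi (0 : ℝ)
  · rw [indicator_of_mem hy, ← ofReal_norm]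
    apply ENNReal.ofReal_le_ofReal
    rw [mem_Ioi] at hy
    rw [norm_Frm f w hy]
    have h := hA (jm a b y.2 (y.1 • (w : EE b)))
    rwa [norm_p2_jm' a b w hy] at h
  · rw [indicator_of_notMem hy]
    exact zero_le

theorem lint_Hm_sq (a b : ℕ) (hb : 1 ≤ b) (f : EE (a + b) → ℂ) (hf : Measurable f) :
    ∫⁻ w : Sp b, ∫⁻ y, Hm a b f w y ^ 2 ∂volume ∂(sg b) = ∫⁻ x, ‖f x‖ₑ ^ 2 := by
  rw [lint_cylm a b hb (fun x => ‖f x‖ₑ ^ 2) (hf.enorm.pow_const 2)]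
  refine lintegral_congr fun w => lintegral_congr fun y => ?_
  unfold Hm
  by_cases hy : y.1 ∈ Ioi (0 : ℝ)
  · rw [indicator_of_mem hy, indicator_of_mem hy]
    rw [mem_Ioi] at hy
    rw [← ofReal_norm, norm_Frm f w hy, ← ofReal_norm,
      ← ENNReal.ofReal_pow (by positivity), ← ENNReal.ofReal_pow (by positivity),
      ← ENNReal.ofReal_mul (by positivity)]
    congr 1
    rw [mul_pow]
    congr 1
    rw [← Real.rpow_natCast (y.1 ^ (((b : ℝ) - 1) / 2)), ← Real.rpow_mul hy.le,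
      ← Real.rpow_natCast y.1]
    congr 1
    push_cast [Nat.cast_sub hb]
    ring
  · rw [indicator_of_notMem hy, indicator_of_notMem hy]
    simp

theorem lint_Hm_le {a b : ℕ} {A B : ℝ} {f : EE (a + b) → ℂ} (hf : BCd B f)
    (hA : ∀ x, ‖p2 a b x‖ ^ (((b : ℝ) - 1) / 2) * ‖f x‖ ≤ A) :
    ∃ K : ℝ≥0∞, K ≠ ⊤ ∧ ∀ w : Sp b, ∫⁻ y, Hm a b f w y ≤ K := by
  obtain ⟨_, _, R, hR⟩ := hf
  refine ⟨ENNReal.ofReal A * volume (Metric.closedBall (0 : ℝ × EE a) R),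
    (ENNReal.mul_lt_top ENNReal.ofReal_lt_top measure_closedBall_lt_top).ne, fun w => ?_⟩
  calc ∫⁻ y, Hm a b f w y ≤ ∫⁻ y, (Metric.closedBall (0 : ℝ × EE a) R).indicator
        (fun _ => ENNReal.ofReal A) y := by
        apply lintegral_mono
        intro y
        show Hm a b f w y ≤ _
        by_cases hy : y ∈ Metric.closedBall (0 : ℝ × EE a) R
        · rw [indicator_of_mem hy]
          exact Hm_le hA w y
        · rw [indicator_of_notMem hy]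
          unfold Hm
          by_cases hy1 : y.1 ∈ Ioi (0 : ℝ)
          · rw [indicator_of_mem hy1]
            rw [mem_Ioi] at hy1
            have h1 : f (jm a b y.2 (y.1 • (w : EE b))) = 0 := by
              apply hR
              rw [mem_closedBall_zero_iff] at hy
              have h2 : ‖jm a b y.2 (y.1 • (w : EE b))‖ ^ 2 = ‖y.2‖ ^ 2 + y.1 ^ 2 := by
                rw [norm_p, p1_jm, p2_jm, norm_smul, norm_sp, mul_one, Real.norm_eq_abs, sq_abs]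
              have h3 : ‖y‖ ^ 2 ≤ ‖jm a b y.2 (y.1 • (w : EE b))‖ ^ 2 := by
                rw [h2, Prod.norm_def]
                rcases max_choice ‖y.1‖ ‖y.2‖ with h | h
                · rw [h, Real.norm_eq_abs, sq_abs]; nlinarith [sq_nonneg ‖y.2‖]
                · rw [h]; nlinarith [sq_nonneg y.1]
              have h4 : ‖y‖ ≤ ‖jm a b y.2 (y.1 • (w : EE b))‖ :=
                le_of_sq_le_sq h3 (norm_nonneg _)
              push Not at hy
              linarith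
            unfold Frm
            rw [h1]
            simp
          · rw [indicator_of_notMem hy1]
    _ = _ := by rw [lintegral_indicator_const Metric.isClosed_closedBall.measurableSet]

/-- the kernel bound gives the pointwise bound -/
theorem GP_pt (a b : ℕ) (L Lam c : ℝ) (hL : 0 ≤ L) (hLam : 0 < Lam) (hc : 0 ≤ c)
    (f : EE (a + b) → ℂ) (hf : Measurable f) (v : Sp b) (x : ℝ × EE a)
    (hk : ∀ ρ : ℝ, 0 < ρ → ∀ w : Sp b, f (jm a b x.2 (ρ • (w : EE b))) ≠ 0 →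
      ‖((Lam : ℝ) : ℂ) * kz b L (fun s => ((chi s : ℝ) : ℂ)) (Lam * x.1) (Lam * ρ) v w‖ ≤
        c * (Lam * (1 + (Lam * (x.1 - ρ)) ^ 2)⁻¹ + Lam * (1 + (Lam * (x.1 + ρ)) ^ 2)⁻¹) *
          bz b L v w) :
    ‖GP a b L Lam f v x‖ₑ ≤
      ∫⁻ w, bb b L v w * TZ (fun u => ENNReal.ofReal c * ck Lam u) (Hm a b f) w x ∂(sg b) := by
  have hκm : Measurable fun u => ENNReal.ofReal c * ck Lam u := (measurable_ck Lam).const_mul _
  have hHm := measurable_Hm a b f hf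
  have hbm := measurable_bb b L
  have hbv : Measurable (bb b L v) := meas_left (g := bb b L) hbm v
  unfold GP
  refine abs_ptZ (sg b) (fun u => ENNReal.ofReal c * ck Lam u) (Hm a b f) (bb b L v) _ x
    hκm hHm hbv ?_
  intro ρ hρ w
  by_cases hz : f (jm a b x.2 (ρ • (w : EE b))) = 0
  · rw [hz, mul_zero, mul_zero, enorm_zero]
    exact zero_le
  have hk1 := hk ρ hρ w hz
  have e1 : Hm a b f w (ρ, x.2) =
      ‖((ρ ^ (((b : ℝ) - 1) / 2) : ℝ) : ℂ) * f (jm a b x.2 (ρ • (w : EE b)))‖ₑ := by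
    unfold Hm Frm
    rw [indicator_of_mem (show (ρ, x.2).1 ∈ Ioi (0 : ℝ) from hρ)]
  have hb0 : 0 ≤ bz b L v w := by unfold bz; positivity
  rw [enorm_mul, e1, ← mul_assoc]
  generalize ((Lam : ℝ) : ℂ) *
      kz b L (fun s => ((chi s : ℝ) : ℂ)) (Lam * x.1) (Lam * ρ) v w = Z at hk1 ⊢
  apply mul_le_mul_left
  calc ‖Z‖ₑ = ENNReal.ofReal ‖Z‖ := by rw [ofReal_norm]
    _ ≤ ENNReal.ofReal (c * (Lam * (1 + (Lam * (x.1 - ρ)) ^ 2)⁻¹ +
          Lam * (1 + (Lam * (x.1 + ρ)) ^ 2)⁻¹) * bz b L v w) :=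
        ENNReal.ofReal_le_ofReal hk1
    _ = bb b L v w * (ENNReal.ofReal c * ck Lam (x.1 - ρ) + ENNReal.ofReal c * ck Lam (x.1 + ρ)) := by
        simp only [ck]
        rw [ENNReal.ofReal_mul (by positivity), ENNReal.ofReal_mul hc,
          ENNReal.ofReal_add (by positivity) (by positivity), mul_add]
        unfold bb
        ring

/-- consequences of a pointwise kernel bound -/
theorem GP_bounds (hY : T_YG) (a b : ℕ) (hb : 1 ≤ b) (L Lam A B : ℝ) (f : EE (a + b) → ℂ)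
    (CZ : ℝ≥0) (hCZ : ∀ v : Sp b, ∫⁻ w : Sp b, ENNReal.ofReal (bz b L v w) ∂(sg b) ≤ CZ)
    (hL : 1 ≤ L) (hLam : 0 < Lam) (hf : BCd B f)
    (hA : ∀ x, ‖p2 a b x‖ ^ (((b : ℝ) - 1) / 2) * ‖f x‖ ≤ A) (c : ℝ) (hc : 0 ≤ c)
    (hk : ∀ x : ℝ × EE a, ∀ ρ : ℝ, 0 < ρ → ∀ v w : Sp b, f (jm a b x.2 (ρ • (w : EE b))) ≠ 0 →
      ‖((Lam : ℝ) : ℂ) * kz b L (fun s => ((chi s : ℝ) : ℂ)) (Lam * x.1) (Lam * ρ) v w‖ ≤
        c * (Lam * (1 + (Lam * (x.1 - ρ)) ^ 2)⁻¹ + Lam * (1 + (Lam * (x.1 + ρ)) ^ 2)⁻¹) *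
          bz b L v w) :
    (∀ v, ∀ x, ‖GP a b L Lam f v x‖ ≤ 2 * Real.pi * c * CZ * A) ∧
    (∫⁻ v : Sp b, ∫⁻ x, ‖GP a b L Lam f v x‖ₑ ^ 2 ∂volume ∂(sg b) ≤
      ENNReal.ofReal ((2 * Real.pi * c * CZ) ^ 2) * ∫⁻ x, ‖f x‖ₑ ^ 2) ∧
    (∀ v, ∫⁻ x, ‖GP a b L Lam f v x‖ₑ < ⊤) := by
  have hA0 : 0 ≤ A :=
    (mul_nonneg (Real.rpow_nonneg (norm_nonneg _) _) (norm_nonneg _)).trans (hA 0)
  set κ : ℝ → ℝ≥0∞ := fun u => ENNReal.ofReal c * ck Lam u with hκ
  have hκm : Measurable κ := (measurable_ck Lam).const_mul _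
  have hκI : ∫⁻ u, κ u = ENNReal.ofReal (Real.pi * c) := by
    rw [hκ, lintegral_const_mul' _ _ ENNReal.ofReal_ne_top, lintegral_ck Lam hLam,
      ← ENNReal.ofReal_mul hc, mul_comm]
  have hκt : ∫⁻ u, κ u ≠ ⊤ := by rw [hκI]; exact ENNReal.ofReal_ne_top
  have hL0 : 0 ≤ L := by linarith
  obtain ⟨h1, h2, h3⟩ := abs_schurZ hY (sg b) κ (Hm a b f) (bb b L)
    (fun v x => ‖GP a b L Lam f v x‖ₑ) CZ univ MeasurableSet.univ hκm hκt
    (measurable_Hm a b f hf.1) (measurable_bb b L) hCZ (fun w => by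
      simp_rw [bb_symm b L _ w]
      exact hCZ w)
    (fun v x _ => GP_pt a b L Lam c hL0 hLam hc f hf.1 v x (fun ρ hρ w hz => hk x ρ hρ v w hz))
  simp only [Measure.restrict_univ] at h2 h3
  have e2 : (CZ : ℝ≥0∞) * (2 * ENNReal.ofReal (Real.pi * c)) =
      ENNReal.ofReal (2 * Real.pi * c * CZ) := by
    rw [show (2 : ℝ≥0∞) = ENNReal.ofReal 2 by norm_num, ← ENNReal.ofReal_coe_nnreal (p := CZ),
      ← ENNReal.ofReal_mul (by norm_num), ← ENNReal.ofReal_mul (by positivity)]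
    congr 1
    ring
  refine ⟨?_, ?_, ?_⟩
  · intro v x
    have h4 := h1 (ENNReal.ofReal A) ENNReal.ofReal_ne_top (Hm_le hA) v x (mem_univ x)
    rw [hκI, ← mul_assoc, ← mul_assoc, mul_assoc (CZ : ℝ≥0∞), e2,
      ← ENNReal.ofReal_mul (by positivity), ← ofReal_norm] at h4
    exact (ENNReal.ofReal_le_ofReal_iff (by positivity)).1 h4
  · rw [hκI, e2, lint_Hm_sq a b hb f hf.1, ← ENNReal.ofReal_pow (by positivity)] at h2
    exact h2
  · intro v
    obtain ⟨K, hK, hK'⟩ := lint_Hm_le hf hA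
    refine (h3 K hK' v).trans_lt ?_
    rw [hκI]
    exact ENNReal.mul_lt_top ENNReal.coe_lt_top (ENNReal.mul_lt_top
      (ENNReal.mul_lt_top (by norm_num) ENNReal.ofReal_lt_top) hK.lt_top)

/-- the coordinates of `ℝ^(a+1)` -/
theorem mp_split (a : ℕ) : MeasurePreserving (fun q : ℝ × EE a => jo q.2 q.1) volume
    (volume : Measure (EE (a + 1))) := by
  have h := (mp_jo a).comp
    (Measure.measurePreserving_swap (μ := (volume : Measure ℝ)) (ν := (volume : Measure (EE a))))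
  exact h

theorem meas_split {a b : ℕ} (g : Sp b → ℝ × EE a → ℂ)
    (h : Measurable fun q : Sp b × (ℝ × EE a) => g q.1 q.2) :
    Measurable fun q : Sp b × EE (a + 1) => g q.1 (q.2 (Fin.last a), pr q.2) := by
  have h4 : Measurable fun q : Sp b × EE (a + 1) =>
      ((q.1, (q.2 (Fin.last a), pr q.2)) : Sp b × (ℝ × EE a)) := by
    have h5 : Measurable fun x : EE (a + 1) => x (Fin.last a) := by fun_prop
    exact measurable_fst.prodMk ((h5.comp measurable_snd).prodMk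
      (continuous_pr.measurable.comp measurable_snd))
  exact h.comp h4

theorem gmb (hKW : T_KW) (hBZ : T_BZ) (hYG : T_YG) (hZB : T_ZB) : T_GMB := by
  intro a b _ hb2
  have hb1 : 1 ≤ b := by omega
  obtain ⟨CZ, hCZ⟩ := hBZ b hb2
  obtain ⟨C, hC0, hC⟩ := hKW b 2 hb2
  refine ⟨2 * Real.pi * C * CZ + (2 * Real.pi * C * CZ) ^ 2, by positivity, ?_⟩
  intro L Lam A B f hL hLam hf hfs hA
  have hA0 : 0 ≤ A :=
    (mul_nonneg (Real.rpow_nonneg (norm_nonneg _) _) (norm_nonneg _)).trans (hA 0)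
  have hk : ∀ x : ℝ × EE a, ∀ ρ : ℝ, 0 < ρ → ∀ v w : Sp b,
      f (jm a b x.2 (ρ • (w : EE b))) ≠ 0 →
      ‖((Lam : ℝ) : ℂ) * kz b L (fun s => ((chi s : ℝ) : ℂ)) (Lam * x.1) (Lam * ρ) v w‖ ≤
      C * (Lam * (1 + (Lam * (x.1 - ρ)) ^ 2)⁻¹ + Lam * (1 + (Lam * (x.1 + ρ)) ^ 2)⁻¹) *
        bz b L v w := by
    intro x ρ hρ v w hz
    have h0 := hfs _ hz
    rw [norm_p2_jm' a b w hρ] at h0
    have h1 := (hC L Lam x.1 ρ v w hL hLam h0).1
    have hb0 : 0 ≤ bz b L v w := by unfold bz; positivity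
    refine h1.trans ?_
    apply mul_le_mul_of_nonneg_right _ hb0
    have h4 := inv_sq_le (v := Lam * x.1 - Lam * ρ)
    have h5 := inv_sq_le (v := Lam * x.1 + Lam * ρ)
    have e1 : Lam * (x.1 - ρ) = Lam * x.1 - Lam * ρ := by ring
    have e2 : Lam * (x.1 + ρ) = Lam * x.1 + Lam * ρ := by ring
    rw [e1, e2]
    calc _ ≤ C * Lam * ((1 + (Lam * x.1 - Lam * ρ) ^ 2)⁻¹ +
          (1 + (Lam * x.1 + Lam * ρ) ^ 2)⁻¹) :=
          mul_le_mul_of_nonneg_left (add_le_add h4 h5) (by positivity)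
      _ = _ := by ring
  obtain ⟨h1, h2, h3⟩ := GP_bounds hYG a b hb1 L Lam A B f CZ (fun v => hCZ L v hL) hL hLam hf hA
    C hC0 hk
  have hm := measurable_GP hZB a b hb1 L Lam hL f hf.1
  have hmX : Measurable fun q : Sp b × EE (a + 1) => GM a b L Lam f q.1 q.2 := by
    have h6 : (fun q : Sp b × EE (a + 1) => GM a b L Lam f q.1 q.2) =
        fun q => GP a b L Lam f q.1 (q.2 (Fin.last a), pr q.2) := by
      funext q
      rw [GM_eq]
    rw [h6]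
    exact meas_split (GP a b L Lam f) hm
  have hmv : ∀ v, Measurable (GM a b L Lam f v) := fun v =>
    meas_left (g := GM a b L Lam f) hmX v
  have hGM : ∀ (v : Sp b) (q : ℝ × EE a), GM a b L Lam f v (jo q.2 q.1) =
      GP a b L Lam f v q := by
    intro v q
    rw [GM_eq, jo_last, pr_jo]
  refine ⟨hmX, ?_, ?_⟩
  · intro v
    refine ⟨hmv v, ⟨(hmv v).aestronglyMeasurable, ?_⟩, ?_⟩
    · show ∫⁻ X, ‖GM a b L Lam f v X‖ₑ < ⊤
      rw [← (mp_split a).lintegral_comp (hmv v).enorm]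
      simp only [hGM]
      exact h3 v
    · intro X
      rw [GM_eq]
      refine (h1 v _).trans ?_
      apply mul_le_mul_of_nonneg_right _ hA0
      have : 0 ≤ (2 * Real.pi * C * CZ) ^ 2 := by positivity
      linarith
  · have h6 : ∀ v : Sp b, ∫⁻ X, ‖GM a b L Lam f v X‖ₑ ^ 2 =
        ∫⁻ x, ‖GP a b L Lam f v x‖ₑ ^ 2 := by
      intro v
      rw [← (mp_split a).lintegral_comp ((hmv v).enorm.pow_const 2)]
      simp only [hGM]
    simp only [h6]
    refine h2.trans ?_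
    gcongr
    have : 0 ≤ 2 * Real.pi * C * CZ := by positivity
    linarith

/-- GMB -/
theorem pf_gmb (hKW : T_KW) (hBZ : T_BZ) (hYG : T_YG) (hZB : T_ZB) (_hJM : T_JM) : T_GMB :=
  gmb hKW hBZ hYG hZB

end Pool.Agent.H54.BR
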